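import Pool.Agent.U310.TQ.Stm

/-!
Package SUM of project TQ: independence of the two ranges and the union bound.
-/

set_option autoImplicit false

open MeasureTheory ProbabilityTheory Filter
open scoped Topology

namespace Pool.Agent.U667.TQ

open Pool.Agent.U310.TQ
open Pool.Agent.U310.Idx (St sp pe mem_St card_St_pe pe_mem pe_pos)

open Classical in
/-- the number of the chosen integers in `(x, y]` -/
noncomputable def Cx {Ω : Type} (A : ℕ → Set Ω) (x y : ℕ) (ω : Ω) : ℕ :=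
  ((Finset.Ioc x y).filter (fun m => ω ∈ A m)).card

section

variable {Ω : Type} {A : ℕ → Set Ω}

lemma Cx_lt {x y z : ℕ} {ω : Ω} (hxz : x < z) (hyz : y < z) (hz : ω ∈ A z) :
    Cx A x y ω < Cx A x z ω := by
  classical
  unfold Cx
  refine Finset.card_lt_card ?_
  rw [Finset.ssubset_iff_of_subset]
  · exact ⟨z, by rw [Finset.mem_filter, Finset.mem_Ioc]; exact ⟨⟨hxz, le_rfl⟩, hz⟩,
      by rw [Finset.mem_filter, Finset.mem_Ioc]; omega⟩
  · intro m hm
    rw [Finset.mem_filter, Finset.mem_Ioc] at hm ⊢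
    exact ⟨⟨hm.1.1, by omega⟩, hm.2⟩

lemma St_card_add {x y : ℕ} (hxy : x ≤ y) (ω : Ω) :
    (St A y ω).card = (St A x ω).card + Cx A x y ω := by
  classical
  unfold Cx
  rw [← Finset.card_union_of_disjoint]
  · congr 1
    ext m
    rw [Finset.mem_union, mem_St, mem_St, Finset.mem_filter, Finset.mem_Ioc]
    constructor
    · rintro ⟨⟨h1, h2⟩, h3⟩
      by_cases h : m ≤ x
      · exact Or.inl ⟨⟨h1, h⟩, h3⟩
      · exact Or.inr ⟨⟨by omega, h2⟩, h3⟩
    · rintro (⟨⟨h1, h2⟩, h3⟩ | ⟨⟨h1, h2⟩, h3⟩)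
      · exact ⟨⟨h1, by omega⟩, h3⟩
      · exact ⟨⟨by omega, h2⟩, h3⟩
  · rw [Finset.disjoint_left]
    intro m hm hm'
    rw [mem_St] at hm
    rw [Finset.mem_filter, Finset.mem_Ioc] at hm'
    omega

lemma St_card_le (x : ℕ) (ω : Ω) : (St A x ω).card ≤ x := by
  have : St A x ω ⊆ Finset.Icc 1 x := by
    intro m hm
    rw [mem_St] at hm
    exact Finset.mem_Icc.2 hm.1
  have := Finset.card_le_card this
  rwa [Nat.card_Icc, Nat.add_sub_cancel] at this

/-- the sigma algebra of the range `S` -/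
@[reducible] def Fs (A : ℕ → Set Ω) (S : Set ℕ) : MeasurableSpace Ω :=
  ⨆ i ∈ S, MeasurableSpace.generateFrom {A i}

lemma Fs_meas {S : Set ℕ} {i : ℕ} (hi : i ∈ S) : MeasurableSet[Fs A S] (A i) := by
  have h1 : MeasurableSpace.generateFrom {A i} ≤ Fs A S :=
    le_iSup₂ (f := fun (i : ℕ) (_ : i ∈ S) => MeasurableSpace.generateFrom {A i}) i hi
  exact h1 _ (MeasurableSpace.measurableSet_generateFrom rfl)

lemma Cx_meas {S : Set ℕ} {x : ℕ} (hS : ∀ m, x < m → m ∈ S) (y : ℕ) :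
    Measurable[Fs A S] (Cx A x y) := by
  classical
  have h1 : Cx A x y = fun ω => ∑ m ∈ Finset.Ioc x y, if ω ∈ A m then 1 else 0 := by
    funext ω
    unfold Cx
    rw [Finset.card_filter]
  rw [h1]
  let _ : MeasurableSpace Ω := Fs A S
  refine Finset.measurable_sum _ fun m hm => ?_
  exact Measurable.ite (Fs_meas (hS m (Finset.mem_Ioc.1 hm).1)) measurable_const measurable_const

end

theorem t_SUM : S_SUM := by
  classical
  intro hPROD Ω mΩ μ _ A hAm hAi B x1 x2 b ε hε0 hε1 H1 H2 H3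
  obtain ⟨Kc, hKc⟩ : ∃ Kc : ℝ, Kc = (1 - ε ^ 3) ^ B.card := ⟨_, rfl⟩
  have hK0 : 0 ≤ Kc := by
    rw [hKc]
    have : ε ^ 3 ≤ 1 := pow_le_one₀ hε0 hε1
    exact pow_nonneg (by linarith) _
  rw [← hKc]
  -- the events
  obtain ⟨G, hG⟩ : ∃ G : ℕ → (B → ℕ) → Set Ω, G = fun c t =>
    {ω | ∀ q : B, ω ∈ A (t q) ∧ Cx A x1 (t q) ω + c = (q : ℕ)} := ⟨_, rfl⟩
  obtain ⟨M, hM⟩ : ∃ M : (B → ℕ) → Set Ω, M = fun t =>
    {ω | ∀ q : B, ¬ (ω ∈ A (q : ℕ) ∧ ω ∈ A (t q - (q : ℕ) - 1) ∧ ω ∈ A (t q - (q : ℕ) + 1))} := ⟨_, rfl⟩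
  obtain ⟨Ts, hTs⟩ : ∃ Ts : Finset (B → ℕ), Ts =
    (Fintype.piFinset (fun _ : B => Finset.Ioc x1 x2)).filter
      (fun t => ∀ q q' : B, (q : ℕ) < (q' : ℕ) → t q - (q : ℕ) + 3 ≤ t q' - (q' : ℕ)) := ⟨_, rfl⟩
  have hTmem : ∀ t, t ∈ Ts ↔ (∀ q : B, x1 < t q ∧ t q ≤ x2) ∧
      ∀ q q' : B, (q : ℕ) < (q' : ℕ) → t q - (q : ℕ) + 3 ≤ t q' - (q' : ℕ) := by
    intro t
    rw [hTs, Finset.mem_filter, Fintype.mem_piFinset]
    simp only [Finset.mem_Ioc]
  -- measurability
  have mG : ∀ c, ∀ t ∈ Ts, MeasurableSet[Fs A {m | x1 < m}] (G c t) := by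
    intro c t ht
    have e : G c t = ⋂ q : B, (A (t q) ∩ (Cx A x1 (t q)) ⁻¹' {n | n + c = (q : ℕ)}) := by
      rw [hG]
      ext ω
      simp only [Set.mem_setOf_eq, Set.mem_iInter, Set.mem_inter_iff, Set.mem_preimage]
    rw [e]
    refine @MeasurableSet.iInter _ _ (Fs A {m | x1 < m}) _ _ fun q => ?_
    refine @MeasurableSet.inter _ (Fs A {m | x1 < m}) _ _ (Fs_meas (((hTmem t).1 ht).1 q).1) ?_
    exact (Cx_meas (fun m hm => hm) (t q)) (MeasurableSet.of_discrete)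
  have mM : ∀ t ∈ Ts, MeasurableSet[Fs A {m | m ≤ x1}] (M t) := by
    intro t ht
    have e : M t = ⋂ q : B, (A (q : ℕ) ∩ (A (t q - (q : ℕ) - 1) ∩ A (t q - (q : ℕ) + 1)))ᶜ := by
      rw [hM]
      ext ω
      simp only [Set.mem_setOf_eq, Set.mem_iInter, Set.mem_inter_iff, Set.mem_compl_iff]
    rw [e]
    refine @MeasurableSet.iInter _ _ (Fs A {m | m ≤ x1}) _ _ fun q => ?_
    have a1 := ((hTmem t).1 ht).1 q
    have a2 := H1 q q.2
    have a3 := H2 q q.2 q q.2
    refine @MeasurableSet.compl _ _ (Fs A {m | m ≤ x1}) ?_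
    refine @MeasurableSet.inter _ (Fs A {m | m ≤ x1}) _ _ (Fs_meas ?_) ?_
    · show (q : ℕ) ≤ x1
      omega
    refine @MeasurableSet.inter _ (Fs A {m | m ≤ x1}) _ _ (Fs_meas ?_) (Fs_meas ?_)
    · show t q - (q : ℕ) - 1 ≤ x1
      omega
    · show t q - (q : ℕ) + 1 ≤ x1
      omega
  have hFle : ∀ S : Set ℕ, Fs A S ≤ mΩ := by
    intro S
    refine iSup₂_le fun i _ => MeasurableSpace.generateFrom_le ?_
    rintro s rfl
    exact hAm i
  have hind : Indep (Fs A {m | x1 < m}) (Fs A {m | m ≤ x1}) μ := by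
    refine indep_iSup_of_disjoint (m := fun i => MeasurableSpace.generateFrom {A i}) ?_ ?_ ?_
    · intro i
      refine MeasurableSpace.generateFrom_le ?_
      rintro s rfl
      exact hAm i
    · exact (iIndepSet_iff_iIndep _ _).1 hAi
    · rw [Set.disjoint_left]
      intro m hm hm'
      simp only [Set.mem_setOf_eq] at hm hm'
      omega
  have hprod : ∀ c, ∀ t ∈ Ts, μ.real (G c t ∩ M t) = μ.real (G c t) * μ.real (M t) := by
    intro c t ht
    have := (Indep_iff _ _ _).1 hind _ _ (mG c t ht) (mM t ht)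
    rw [measureReal_def, this, ENNReal.toReal_mul]
    rfl
  -- the product formula
  have hMle : ∀ t ∈ Ts, μ.real (M t) ≤ Kc := by
    intro t ht
    obtain ⟨t1, t2⟩ := (hTmem t).1 ht
    obtain ⟨τ, hτ⟩ : ∃ τ : ℕ → ℕ, τ = fun q => if h : q ∈ B then t ⟨q, h⟩ - q else 0 := ⟨_, rfl⟩
    have hτB : ∀ q (h : q ∈ B), τ q = t ⟨q, h⟩ - q := by
      intro q h
      rw [hτ]
      simp only [h, dif_pos]
    have h := hPROD μ A hAm hAi B τ ε hε0 hε1 ?_ ?_ ?_
    · rw [hKc]
      refine le_trans (le_of_eq ?_) h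
      congr 1
      rw [hM]
      ext ω
      simp only [Set.mem_setOf_eq]
      constructor
      · intro h q hq
        rw [hτB q hq]
        exact h ⟨q, hq⟩
      · intro h q
        have := h q q.2
        rw [hτB q q.2] at this
        exact this
    · intro q hq q' hq'
      rw [hτB q' hq']
      have := t1 ⟨q', hq'⟩
      have := H2 q hq q' hq'
      omega
    · intro q hq q' hq' hlt
      rw [hτB q' hq', hτB q hq]
      exact t2 ⟨q, hq⟩ ⟨q', hq'⟩ hlt
    · intro q hq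
      rw [hτB q hq]
      have c1 := t1 ⟨q, hq⟩
      have c2 := H2 q hq q hq
      have c3 := H1 q hq
      refine ⟨H3 q (by omega) (by omega), H3 _ (by omega) (by omega), H3 _ (by omega) (by omega)⟩
  -- the sum for fixed c
  have hsum : ∀ c, ∑ t ∈ Ts, μ.real (G c t ∩ M t) ≤ Kc := by
    intro c
    have hdisj : (Ts : Set (B → ℕ)).PairwiseDisjoint (G c) := by
      intro t ht t' ht' hne
      refine Set.disjoint_left.2 fun ω hω hω' => hne ?_
      rw [hG] at hω hω'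
      simp only [Set.mem_setOf_eq] at hω hω'
      funext q
      obtain ⟨a1, a2⟩ := hω q
      obtain ⟨b1, b2⟩ := hω' q
      have c1 := (((hTmem t).1 (Finset.mem_coe.1 ht)).1 q)
      have c2 := (((hTmem t').1 (Finset.mem_coe.1 ht')).1 q)
      rcases lt_trichotomy (t q) (t' q) with h | h | h
      · have := Cx_lt (A := A) c2.1 h b1
        omega
      · exact h
      · have := Cx_lt (A := A) c1.1 h a1
        omega
    calc ∑ t ∈ Ts, μ.real (G c t ∩ M t) ≤ ∑ t ∈ Ts, μ.real (G c t) * Kc := by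
          refine Finset.sum_le_sum fun t ht => ?_
          rw [hprod c t ht]
          exact mul_le_mul_of_nonneg_left (hMle t ht) measureReal_nonneg
      _ = μ.real (⋃ t ∈ Ts, G c t) * Kc := by
          rw [← Finset.sum_mul, measureReal_biUnion_finset hdisj
            fun t ht => hFle _ _ (mG c t ht)]
      _ ≤ 1 * Kc := mul_le_mul_of_nonneg_right measureReal_le_one hK0
      _ = Kc := one_mul _
  -- the covering
  have hcov : {ω | (setOf (sp A ω)).Infinite ∧ (∀ q ∈ B, x1 < pe A ω q ∧ pe A ω q ≤ x2) ∧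
      (∀ q ∈ B, ∀ q' ∈ B, q < q' → pe A ω q - q + 3 ≤ pe A ω q' - q') ∧
      ∀ q ∈ B, ¬ (ω ∈ A q ∧ ω ∈ A (pe A ω q - q - 1) ∧ ω ∈ A (pe A ω q - q + 1))} ⊆
      ⋃ c ∈ Finset.range (x1 + 1), ⋃ t ∈ Ts, (G c t ∩ M t) := by
    rintro ω ⟨hinf, hx, hsp, hno⟩
    have hc := St_card_le (A := A) x1 ω
    simp only [Set.mem_iUnion]
    refine ⟨(St A x1 ω).card, Finset.mem_range.2 (by omega), fun q => pe A ω q, ?_, ?_, ?_⟩
    · rw [hTmem]
      exact ⟨fun q => hx q q.2, fun q q' h => hsp q q.2 q' q'.2 h⟩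
    · rw [hG]
      intro q
      have h1 := H1 q q.2
      have h2 := card_St_pe hinf h1.1
      have h3 := pe_mem hinf (q : ℕ)
      have h4 := hx q q.2
      refine ⟨h3.2, ?_⟩
      have h5 := St_card_add (A := A) (x := x1) (y := pe A ω q) h4.1.le ω
      have h6 := St_card_add (A := A) (x := pe A ω q - 1) (y := pe A ω q) (by omega) ω
      have h7 : Cx A (pe A ω q - 1) (pe A ω q) ω = 1 := by
        unfold Cx
        have e : (Finset.Ioc (pe A ω q - 1) (pe A ω q)).filter (fun m => ω ∈ A m) =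
            {pe A ω q} := by
          ext m
          rw [Finset.mem_filter, Finset.mem_Ioc, Finset.mem_singleton]
          constructor
          · rintro ⟨h, _⟩
            omega
          · rintro rfl
            exact ⟨⟨by omega, le_rfl⟩, h3.2⟩
        rw [e, Finset.card_singleton]
      show Cx A x1 (pe A ω q) ω + (St A x1 ω).card = (q : ℕ)
      omega
    · rw [hM]
      exact fun q => hno q q.2
  calc μ.real _ ≤ μ.real (⋃ c ∈ Finset.range (x1 + 1), ⋃ t ∈ Ts, (G c t ∩ M t)) :=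
        measureReal_mono hcov (measure_ne_top _ _)
    _ ≤ ∑ c ∈ Finset.range (x1 + 1), μ.real (⋃ t ∈ Ts, (G c t ∩ M t)) :=
        measureReal_biUnion_finset_le _ _
    _ ≤ ∑ c ∈ Finset.range (x1 + 1), ∑ t ∈ Ts, μ.real (G c t ∩ M t) :=
        Finset.sum_le_sum fun c _ => measureReal_biUnion_finset_le _ _
    _ ≤ ∑ _c ∈ Finset.range (x1 + 1), Kc := Finset.sum_le_sum fun c _ => hsum c
    _ = (x1 + 1) * Kc := by
        rw [Finset.sum_const, Finset.card_range, nsmul_eq_mul]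
        push_cast
        ring

end Pool.Agent.U667.TQ
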